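import Mathlib
import Pool.Agent.H.MP_87c4bd_co.A

namespace Pool.Agent.Results.MP_87c4bd_co.No

open MeasureTheory Set Filter Pool.Agent.H.MP_87c4bd_co
open scoped ENNReal

universe u

variable {Ω : Type u} [MeasurableSpace Ω]

/-- `-log t` for `t ∈ [0,1]`, with `-log 0 = ∞`. -/
noncomputable def nl (t : ℝ≥0∞) : ℝ≥0∞ := (-ENNReal.log t).toENNReal

noncomputable def phi (P : Measure Ω) (a : Ω → ℝ≥0∞) : ℝ≥0∞ := ∫⁻ x, nl (a x) ∂P

/-- `N_ℓ(I, P, lam)`, equal to `∞` if no finite number of boxes suffices. -/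
noncomputable def coverNum (P : Measure Ω) (I : Set (Set Ω)) (lam : ℝ) (l : ℕ) : ℝ≥0∞ :=
  ⨅ (N : ℕ) (J : Fin N → Fin l → Set Ω) (_ : ∀ k i, J k i ∈ I)
    (_ : 1 - lam ≤ (Measure.pi fun _ : Fin l => P).real (⋃ k, univ.pi (J k))), (N : ℝ≥0∞)

/-- `(1/ℓ) log N_ℓ`. -/
noncomputable def rate (P : Measure Ω) (I : Set (Set Ω)) (lam : ℝ) (l : ℕ) : ℝ≥0∞ :=
  (ENNReal.log (coverNum P I lam l)).toENNReal / l

/-- Countable convex combinations of indicators of members of `I`. -/
def Cnt (I : Set (Set Ω)) : Set (Ω → ℝ≥0∞) :=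
  {a | ∃ (ι : Type) (_ : Countable ι) (q : ι → ℝ≥0∞) (J : ι → Set Ω), (∀ k, J k ∈ I) ∧
    ∑' k, q k = 1 ∧ a = fun x => ∑' k, q k * (J k).indicator 1 x}

noncomputable def Hcnt (P : Measure Ω) (I : Set (Set Ω)) : ℝ≥0∞ := ⨅ a ∈ Cnt I, phi P a

/-- The infimum of `phi` over all compatible probability measures `β` on `I`. -/
noncomputable def Hfull (P : Measure Ω) (I : Set (Set Ω)) : ℝ≥0∞ :=
  ⨅ (_ : MeasurableSpace I) (β : Measure I) (_ : IsProbabilityMeasure β)
    (_ : NullMeasurableSet {p : I × Ω | p.2 ∈ p.1.1} (β.prod P)),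
    phi P (fun x => ∫⁻ J, (J.1).indicator 1 x ∂β)

lemma nl_anti {s t : ℝ≥0∞} (h : s ≤ t) : nl t ≤ nl s :=
  EReal.toENNReal_le_toENNReal (EReal.neg_le_neg_iff.2 (ENNReal.log_monotone h))

lemma nl_ofReal {r : ℝ} (h : 0 < r) : nl (ENNReal.ofReal r) = ENNReal.ofReal (-Real.log r) := by
  rw [nl, ENNReal.log_ofReal_of_pos h, ← EReal.coe_neg, EReal.real_coe_toENNReal]

lemma nl_mul {c : ℝ≥0∞} (h0 : c ≠ 0) (h1 : c ≠ ⊤) (s : ℝ≥0∞) : nl (c * s) ≤ nl s + nl c := by
  rw [nl, ENNReal.log_mul_add, add_comm, EReal.neg_add (by simp [h1]) (by simp [h0]), sub_eq_add_neg]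
  exact EReal.toENNReal_add_le

lemma nl_ne_top {c : ℝ≥0∞} (h0 : c ≠ 0) : nl c ≠ ⊤ := by simp [nl, h0]

lemma nl_meas : Measurable nl :=
  measurable_ereal_toENNReal.comp ENNReal.measurable_log.neg

lemma cnt_meas {I : Set (Set Ω)} (hI : ∀ J ∈ I, MeasurableSet J) {a : Ω → ℝ≥0∞} (h : a ∈ Cnt I) :
    Measurable a := by
  obtain ⟨ι, _, q, J, hJ, -, rfl⟩ := h
  exact Measurable.ennreal_tsum fun k =>
    measurable_const.mul (measurable_one.indicator (hI _ (hJ k)))

omit [MeasurableSpace Ω] in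
lemma cnt_tsum {I : Set (Set Ω)} (w : ℕ → ℝ≥0∞) (hw : ∑' n, w n = 1) (a : ℕ → Ω → ℝ≥0∞)
    (h : ∀ n, a n ∈ Cnt I) : (fun x => ∑' n, w n * a n x) ∈ Cnt I := by
  choose ι hι q J hJ hq ha using h
  refine ⟨Σ n, ι n, inferInstance, fun p => w p.1 * q p.1 p.2, fun p => J p.1 p.2,
    fun p => hJ _ _, ?_, ?_⟩
  · rw [ENNReal.tsum_sigma']
    simp only [ENNReal.tsum_mul_left, hq, mul_one, hw]
  · funext x
    rw [ENNReal.tsum_sigma']
    simp only [mul_assoc, ENNReal.tsum_mul_left, ha]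

noncomputable def R (P : Measure Ω) (I : Set (Set Ω)) (M : ℕ) : ℝ≥0∞ :=
  ⨅ a ∈ Cnt I, ∫⁻ x, min (nl (a x)) M ∂P

lemma glue (P : Measure Ω) [IsProbabilityMeasure P] {I : Set (Set Ω)}
    (hI : ∀ J ∈ I, MeasurableSet J) : Hcnt P I ≤ ⨆ M, R P I M := by
  obtain ⟨L, hL⟩ : ∃ L, L = ⨆ M, R P I M := ⟨_, rfl⟩
  rw [← hL]
  refine ENNReal.le_of_forall_pos_le_add fun ε5 hε5 hLt => ?_
  obtain ⟨ε, hε, hε1, hε'⟩ : ∃ ε : ℝ, 0 < ε ∧ ε ≤ 1 ∧ 5 * ENNReal.ofReal ε ≤ ε5 := by
    refine ⟨min 1 (ε5 / 5), by positivity, min_le_left _ _, ?_⟩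
    rw [← ENNReal.ofReal_coe_nnreal, ← ENNReal.ofReal_ofNat, ← ENNReal.ofReal_mul (by norm_num)]
    refine ENNReal.ofReal_le_ofReal ?_
    have := min_le_right 1 ((ε5 : ℝ) / 5)
    linarith
  obtain ⟨δ, δp, δs⟩ := ENNReal.exists_pos_sum_of_countable' (ε := ENNReal.ofReal ε)
    (by simpa using hε) ℕ
  have δ1 : ∀ n, δ n ≤ ENNReal.ofReal ε := fun n => (ENNReal.le_tsum n).trans δs.le
  have δ2 : ∀ n, δ n ≤ 1 := fun n => (δ1 n).trans (by simpa using hε1)
  obtain ⟨w, w0, w1, ws, wc⟩ : ∃ w : ℕ → ℝ≥0∞, (∀ n, w n ≠ 0) ∧ (∀ n, w n ≠ ⊤) ∧ ∑' n, w n = 1 ∧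
      nl (w 0) ≤ ENNReal.ofReal ε := by
    have h1 : ENNReal.ofReal (Real.exp (-ε)) < 1 := by simpa using hε
    refine ⟨fun n => Nat.casesOn n (ENNReal.ofReal (Real.exp (-ε)))
      (fun n => (1 - ENNReal.ofReal (Real.exp (-ε))) * 2⁻¹ ^ (n + 1)), ?_, ?_, ?_, ?_⟩
    · rintro (_ | n)
      · simpa using Real.exp_pos _
      · exact mul_ne_zero (tsub_pos_of_lt h1).ne' (by simp)
    · rintro (_ | n)
      · simp
      · exact ENNReal.mul_ne_top (by simp) (by simp)
    · rw [tsum_eq_zero_add' ENNReal.summable]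
      simp only [ENNReal.tsum_mul_left, ENNReal.tsum_geometric_add_one, ENNReal.one_sub_inv_two,
        inv_inv]
      rw [ENNReal.inv_mul_cancel (by simp) (by simp), mul_one]
      exact add_tsub_cancel_of_le h1.le
    · exact (nl_ofReal (Real.exp_pos _)).le.trans (by simp)
  have : ∀ n, ∃ M', L ≤ R P I M' + δ n := fun n => by
    by_cases h0 : L = 0
    · exact ⟨0, by simp [h0]⟩
    have : L - δ n < ⨆ M, R P I M := hL ▸ ENNReal.sub_lt_self hLt.ne h0 (δp n).ne'
    obtain ⟨M', hM'⟩ := lt_iSup_iff.1 this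
    exact ⟨M', tsub_le_iff_right.1 hM'.le⟩
  choose M' hM' using this
  obtain ⟨K, hK⟩ : ∃ K : ℕ → ℝ≥0∞, ∀ n, K n = M' (n + 1) + (nl (w (n + 1)) + 1) := ⟨_, fun _ => rfl⟩
  have Kt : ∀ n, K n ≠ ⊤ := fun n => by simp [hK, nl_ne_top (w0 _)]
  have : ∀ n, ∃ M : ℕ, M' n ≤ M ∧ (L + 1) * K n / δ n < M := fun n => by
    obtain ⟨M, hM⟩ := ENNReal.exists_nat_gt (r := (L + 1) * K n / δ n)
      (ENNReal.div_ne_top (ENNReal.mul_ne_top (by simp [hLt.ne]) (Kt n)) (δp n).ne')
    exact ⟨max (M' n) M, le_max_left _ _, hM.trans_le (by exact_mod_cast le_max_right _ _)⟩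
  choose M hM1 hM2 using this
  have : ∀ n, ∃ a ∈ Cnt I, ∫⁻ x, min (nl (a x)) (M n) ∂P ≤ L + δ n := fun n => by
    have : R P I (M n) < L + δ n :=
      (hL ▸ le_iSup (R P I) (M n)).trans_lt (ENNReal.lt_add_right hLt.ne (δp n).ne')
    simp only [R, iInf_lt_iff] at this
    obtain ⟨a, ha, h⟩ := this
    exact ⟨a, ha, h.le⟩
  choose a ha hg using this
  have mn : ∀ n, Measurable fun x => nl (a n x) := fun n => nl_meas.comp (cnt_meas hI (ha n))
  have mg : ∀ n (c : ℕ), Measurable fun x => min (nl (a n x)) c := fun n c =>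
    (mn n).min measurable_const
  obtain ⟨E, hE⟩ : ∃ E : ℕ → Set Ω, ∀ n, E n = {x | (M n : ℝ≥0∞) ≤ nl (a n x)} := ⟨_, fun _ => rfl⟩
  have mE : ∀ n, MeasurableSet (E n) := fun n => hE n ▸ measurableSet_le measurable_const (mn n)
  have e1 : ∀ n, K n * P (E n) ≤ δ n := fun n => by
    have h1 : (M n : ℝ≥0∞) * P (E n) ≤ L + 1 := by
      refine le_trans ?_ ((mul_meas_ge_le_lintegral (mg n (M n)) (M n)).trans
        ((hg n).trans (add_le_add_right (δ2 n) _)))
      simp [hE]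
    have h2 := hM2 n
    have h0 : (M n : ℝ≥0∞) ≠ 0 := (lt_of_le_of_lt (by simp) h2).ne'
    rw [ENNReal.div_lt_iff (Or.inl (δp n).ne') (Or.inl ((δ2 n).trans_lt (by simp)).ne)] at h2
    refine (ENNReal.mul_le_mul_iff_right h0 (by simp)).1 (le_trans ?_ h2.le)
    calc (M n : ℝ≥0∞) * (K n * P (E n)) = M n * P (E n) * K n := by ring
      _ ≤ _ := by gcongr
  have e2 : ∀ n, ∫⁻ x, (E n).indicator (fun x => min (nl (a (n + 1) x)) (M (n + 1))) x ∂P ≤
      2 * δ (n + 1) + M' (n + 1) * P (E n) := fun n => by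
    have h1 : ∫⁻ x, (E n).indicator (fun x => min (nl (a (n + 1) x)) (M (n + 1))) x ∂P +
        ∫⁻ x, min (nl (a (n + 1) x)) (M' (n + 1)) ∂P ≤
        ∫⁻ x, min (nl (a (n + 1) x)) (M (n + 1)) ∂P + M' (n + 1) * P (E n) := by
      rw [← lintegral_add_right _ (mg _ _), ← lintegral_indicator_const (mE n),
        ← lintegral_add_left (mg _ _)]
      refine lintegral_mono fun x => ?_
      by_cases hx : x ∈ E n
      · simp only [indicator_of_mem hx]
        exact add_le_add_right (min_le_right _ _) _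
      · simp only [indicator_of_notMem hx, zero_add, add_zero]
        exact min_le_min_left _ (by exact_mod_cast hM1 (n + 1))
    have h2 : R P I (M' (n + 1)) ≤ ∫⁻ x, min (nl (a (n + 1) x)) (M' (n + 1)) ∂P :=
      iInf₂_le _ (ha _)
    refine (ENNReal.add_le_add_iff_right hLt.ne).1 ?_
    calc _ ≤ _ + (∫⁻ x, min (nl (a (n + 1) x)) (M' (n + 1)) ∂P + δ (n + 1)) :=
          add_le_add_right ((hM' (n + 1)).trans (add_le_add_left h2 _)) _
      _ ≤ L + δ (n + 1) + M' (n + 1) * P (E n) + δ (n + 1) := by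
          rw [← add_assoc]; exact add_le_add_left (h1.trans (add_le_add_left (hg _) _)) _
      _ = _ := by ring
  refine (iInf₂_le _ (cnt_tsum w ws a ha)).trans ?_
  have pt : ∀ x, nl (∑' n, w n * a n x) ≤ min (nl (a 0 x)) (M 0) + (nl (w 0) +
      ∑' n, ((E n).indicator (fun x => min (nl (a (n + 1) x)) (M (n + 1))) x +
        (E n).indicator (fun _ => nl (w (n + 1)) + 1) x)) := by
    intro x
    have b : ∀ n, x ∉ E n → nl (∑' n, w n * a n x) ≤ min (nl (a n x)) (M n) + nl (w n) := by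
      intro n hn
      rw [hE, mem_setOf_eq, not_le] at hn
      rw [min_eq_left hn.le]
      exact (nl_anti (ENNReal.le_tsum n)).trans (nl_mul (w0 n) (w1 n) _)
    by_cases h : ∀ n, x ∈ E n
    · have : ∑' n, ((E n).indicator (fun x => min (nl (a (n + 1) x)) (M (n + 1))) x +
        (E n).indicator (fun _ => nl (w (n + 1)) + 1) x) = ⊤ := by
        refine top_le_iff.1 ((ENNReal.tsum_const_eq_top_of_ne_zero (α := ℕ) one_ne_zero).ge.trans
          (ENNReal.tsum_le_tsum fun n => ?_))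
        simp only [indicator_of_mem (h n)]
        exact le_add_left le_add_self
      simp [this]
    · push Not at h
      classical
      rcases hn : Nat.find h with _ | n
      · exact (b 0 (hn ▸ Nat.find_spec h)).trans (add_le_add_right le_self_add _)
      · have h1 : x ∈ E n := not_not.1 (Nat.find_min h (by omega))
        refine (b (n + 1) (hn ▸ Nat.find_spec h)).trans (le_add_left (le_add_left
          (le_trans ?_ (ENNReal.le_tsum n))))
        simp only [indicator_of_mem h1]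
        exact add_le_add_right le_self_add _
  refine (lintegral_mono pt).trans ?_
  rw [lintegral_add_left (mg _ _), lintegral_add_left measurable_const, lintegral_tsum
    fun n => (((mg _ _).indicator (mE n)).fun_add
      (measurable_const.indicator (mE n))).aemeasurable]
  have e3 : ∑' n, ∫⁻ x, ((E n).indicator (fun x => min (nl (a (n + 1) x)) (M (n + 1))) x +
      (E n).indicator (fun _ => nl (w (n + 1)) + 1) x) ∂P ≤ 3 * ENNReal.ofReal ε := by
    calc _ ≤ ∑' n, (2 * δ (n + 1) + δ n) := by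
          refine ENNReal.tsum_le_tsum fun n => ?_
          rw [lintegral_add_left ((mg _ _).indicator (mE n)), lintegral_indicator_const (mE n)]
          refine (add_le_add_left (e2 n) _).trans ?_
          rw [add_assoc, ← add_mul, ← hK]
          exact add_le_add_right (e1 n) _
      _ ≤ 2 * ENNReal.ofReal ε + ENNReal.ofReal ε := by
          rw [ENNReal.tsum_add, ENNReal.tsum_mul_left]
          have := ENNReal.tsum_comp_le_tsum_of_injective (add_left_injective 1) δ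
          gcongr
          exact this.trans δs.le
      _ = _ := by ring
  calc _ ≤ L + ENNReal.ofReal ε + (ENNReal.ofReal ε + 3 * ENNReal.ofReal ε) := by
        refine add_le_add ((hg 0).trans (add_le_add_right (δ1 0) _)) (add_le_add ?_ e3)
        simpa using wc
    _ = L + 5 * ENNReal.ofReal ε := by ring
    _ ≤ _ := add_le_add_right hε' _

lemma min_nl {r : ℝ} (h0 : 0 ≤ r) (M : ℕ) :
    min (nl (ENNReal.ofReal r)) M = ENNReal.ofReal (-Real.log (max r (Real.exp (-M)))) := by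
  have e : nl (ENNReal.ofReal (Real.exp (-M))) = M := by
    rw [nl_ofReal (Real.exp_pos _)]; simp
  rcases le_total r (Real.exp (-M)) with h | h
  · rw [max_eq_right h, min_eq_right (e ▸ nl_anti (ENNReal.ofReal_le_ofReal h))]; simp
  · rw [max_eq_left h, min_eq_left (e ▸ nl_anti (ENNReal.ofReal_le_ofReal h)),
      nl_ofReal ((Real.exp_pos _).trans_le h)]

lemma R_le (P : Measure Ω) [IsProbabilityMeasure P] {I : Set (Set Ω)}
    (hI : ∀ J ∈ I, MeasurableSet J) {lam : ℝ} (h1 : lam < 1) (M : ℕ) {ε : ℝ} (hε : 0 < ε) :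
    ∀ᶠ l in atTop, R P I M ≤ rate P I lam l + ENNReal.ofReal ε := by
  obtain ⟨v, hv⟩ : ∃ v, v = 1 - lam := ⟨_, rfl⟩
  have v0 : 0 < v := by linarith
  have t := (tendsto_const_div_atTop_nhds_zero_nat
    (-Real.log v + M ^ 2 / (2 * (ε * v) * v))).eventually_lt_const (half_pos hε)
  filter_upwards [t, eventually_ge_atTop 1] with l hl l1
  have l0 : (0 : ℝ) < l := by exact_mod_cast l1
  by_cases ht : coverNum P I lam l = ⊤
  · simp [rate, ht, ENNReal.top_div]
  obtain ⟨N, J, hJ, hU, hN⟩ : ∃ (N : ℕ) (J : Fin N → Fin l → Set Ω), (∀ k i, J k i ∈ I) ∧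
      1 - lam ≤ (Measure.pi fun _ : Fin l => P).real (⋃ k, univ.pi (J k)) ∧
      (N : ℝ≥0∞) ≤ coverNum P I lam l := by
    classical
    have ex : ∃ (N : ℕ) (J : Fin N → Fin l → Set Ω), (∀ k i, J k i ∈ I) ∧
        1 - lam ≤ (Measure.pi fun _ : Fin l => P).real (⋃ k, univ.pi (J k)) := by
      by_contra hc
      push Not at hc
      refine ht (top_le_iff.1 (le_iInf fun N => le_iInf fun J => le_iInf fun a => le_iInf fun b => ?_))
      exact absurd b (hc N J a).not_ge
    obtain ⟨J, a, b⟩ := Nat.find_spec ex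
    refine ⟨_, J, a, b, le_iInf fun N => le_iInf fun J => le_iInf fun a => le_iInf fun b => ?_⟩
    exact_mod_cast Nat.find_min' ex ⟨J, a, b⟩
  obtain ⟨u, hu⟩ : ∃ u, u = (Measure.pi fun _ : Fin l => P).real (⋃ k, univ.pi (J k)) := ⟨_, rfl⟩
  rw [← hu, ← hv] at hU
  have u0 : 0 < u := v0.trans_le hU
  obtain ⟨q, q0, qs, hq⟩ := core P J (fun k i => hI _ (hJ k i)) M (ε * v * l) (by positivity)
    (by positivity) u hu u0
  have N0 : (0 : ℝ) < N := by
    rcases Nat.eq_zero_or_pos N with rfl | h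
    · simp at qs
    · exact_mod_cast h
  have bound : ∑ i, ∫ x, -Real.log (max (∑ k, q k * (J k i).indicator 1 x) (Real.exp (-M))) ∂P ≤
      ∑ _i : Fin l, (Real.log N / l + ε) := by
    simp only [Finset.sum_const, Finset.card_univ, Fintype.card_fin, nsmul_eq_mul]
    refine le_of_mul_le_mul_left (hq.trans ?_) u0
    rw [div_lt_iff₀ l0] at hl
    have a1 : Real.log (N / u) ≤ Real.log N - Real.log v := by
      rw [Real.log_div N0.ne' u0.ne']
      linarith [Real.log_le_log v0 hU]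
    have a2 : l * (M : ℝ) ^ 2 / (2 * (ε * v * l)) ≤ u * (M ^ 2 / (2 * (ε * v) * v)) := by
      have : l * (M : ℝ) ^ 2 / (2 * (ε * v * l)) = v * (M ^ 2 / (2 * (ε * v) * v)) := by field_simp
      rw [this]; gcongr
    have a3 : ε * v * l / 2 ≤ u * (ε / 2 * l) := by
      have : ε * v * l / 2 = v * (ε / 2 * l) := by ring
      rw [this]; gcongr
    have a4 : (l : ℝ) * (Real.log N / l + ε) = Real.log N + ε * l := by field_simp
    rw [a4]
    nlinarith [mul_le_mul_of_nonneg_left a1 u0.le, mul_le_mul_of_nonneg_left hl.le u0.le]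
  haveI : Nonempty (Fin l) := ⟨⟨0, l1⟩⟩
  obtain ⟨i, -, hi⟩ := Finset.exists_le_of_sum_le Finset.univ_nonempty bound
  have a0 : ∀ x, 0 ≤ ∑ k, q k * (J k i).indicator (1 : Ω → ℝ) x := fun x =>
    Finset.sum_nonneg fun k _ => mul_nonneg (q0 k) (indicator_nonneg (fun _ _ => zero_le_one) x)
  have a1 : ∀ x, ∑ k, q k * (J k i).indicator (1 : Ω → ℝ) x ≤ 1 := fun x => by
    rw [← qs]
    refine Finset.sum_le_sum fun k _ => mul_le_of_le_one_right (q0 k) ?_
    exact indicator_le_self' (fun _ _ => zero_le_one) x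
  have mem : (fun x => ENNReal.ofReal (∑ k, q k * (J k i).indicator 1 x)) ∈ Cnt I := by
    refine ⟨Fin N, inferInstance, fun k => ENNReal.ofReal (q k), fun k => J k i, fun k => hJ k i,
      ?_, ?_⟩
    · rw [tsum_fintype, ← ENNReal.ofReal_sum_of_nonneg fun k _ => q0 k, qs]; simp
    · funext x
      rw [tsum_fintype, ENNReal.ofReal_sum_of_nonneg (f := fun k => q k * (J k i).indicator 1 x)
        fun k _ => mul_nonneg (q0 k) (indicator_nonneg (fun _ _ => zero_le_one) x)]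
      refine Finset.sum_congr rfl fun k _ => ?_
      by_cases h : x ∈ J k i <;> simp [h]
  refine (iInf₂_le _ mem).trans ?_
  simp only [min_nl (a0 _)]
  have gi : ∀ x, -Real.log (max (∑ k, q k * (J k i).indicator 1 x) (Real.exp (-M))) ∈
      Icc (0 : ℝ) M := fun x =>
    ⟨neg_nonneg.2 (Real.log_nonpos ((Real.exp_pos _).le.trans (le_max_right _ _))
      (max_le (a1 x) (Real.exp_le_one_iff.2 (by simp)))), by
      have := Real.log_le_log (Real.exp_pos (-M))
        (le_max_right (∑ k, q k * (J k i).indicator 1 x) _)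
      rw [Real.log_exp] at this; linarith⟩
  have ig : Integrable (fun x =>
      -Real.log (max (∑ k, q k * (J k i).indicator 1 x) (Real.exp (-M)))) P :=
    intg P ((Finset.measurable_sum _ fun k _ => measurable_const.mul
      (measurable_one.indicator (hI _ (hJ k i)))).max measurable_const).log.neg gi
  rw [← ofReal_integral_eq_lintegral_ofReal ig (ae_of_all _ fun x => (gi x).1)]
  refine (ENNReal.ofReal_le_ofReal hi).trans (ENNReal.ofReal_add_le.trans (add_le_add_left ?_ _))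
  rw [rate, ENNReal.ofReal_div_of_pos l0, ENNReal.ofReal_natCast]
  refine ENNReal.div_le_div_right ?_ _
  refine le_trans ?_ (EReal.toENNReal_le_toENNReal (ENNReal.log_monotone hN))
  rw [← ENNReal.ofReal_natCast, ENNReal.log_ofReal_of_pos N0, EReal.real_coe_toENNReal]

lemma full_le (P : Measure Ω) [IsProbabilityMeasure P] {I : Set (Set Ω)}
    (hI : ∀ J ∈ I, MeasurableSet J) : Hfull P I ≤ Hcnt P I := by
  refine le_iInf₂ fun a ha => ?_
  obtain ⟨ι, _, q, J, hJ, hq, rfl⟩ := ha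
  letI : MeasurableSpace I := ⊤
  let β : Measure I := Measure.sum fun k => q k • Measure.dirac (⟨J k, hJ k⟩ : I)
  haveI hβ : IsProbabilityMeasure β := ⟨by simp [β, hq]⟩
  have hc : NullMeasurableSet {p : I × Ω | p.2 ∈ p.1.1} (β.prod P) := by
    have m : MeasurableSet (⋃ k, ({⟨J k, hJ k⟩} : Set I) ×ˢ J k) :=
      MeasurableSet.iUnion fun k => MeasurableSet.prod trivial (hI _ (hJ k))
    refine m.nullMeasurableSet.congr ?_
    have : ∀ᵐ K ∂β, ∃ k, K = ⟨J k, hJ k⟩ := by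
      rw [Measure.ae_sum_iff]
      intro k
      refine Measure.ae_smul_measure ?_ _
      rw [ae_dirac_iff MeasurableSpace.measurableSet_top]
      exact ⟨k, rfl⟩
    filter_upwards [Measure.quasiMeasurePreserving_fst.ae this] with p ⟨k, hk⟩
    apply propext
    change p ∈ (⋃ k, ({⟨J k, hJ k⟩} : Set I) ×ˢ J k) ↔ p.2 ∈ p.1.1
    simp only [mem_iUnion, mem_prod, mem_singleton_iff]
    exact ⟨fun ⟨j, h1, h2⟩ => h1 ▸ h2, fun h => ⟨k, hk, by simpa [hk] using h⟩⟩
  refine (iInf_le _ ⊤).trans ((iInf_le _ β).trans ((iInf_le _ hβ).trans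
    ((iInf_le _ hc).trans (le_of_eq ?_))))
  congr 1
  funext x
  simp only [β, lintegral_sum_measure, lintegral_smul_measure, smul_eq_mul]
  refine tsum_congr fun k => ?_
  rw [lintegral_dirac' _ measurable_from_top]

theorem result (Ω : Type u) [MeasurableSpace Ω] (P : Measure Ω) [IsProbabilityMeasure P]
    (I : Set (Set Ω)) (hI : ∀ J ∈ I, MeasurableSet J) (lam : ℝ) (_h0 : 0 < lam) (h1 : lam < 1) :
    Hfull P I ≤ Hcnt P I ∧ Hcnt P I ≤ liminf (rate P I lam) atTop ∧
      ¬ limsup (rate P I lam) atTop < Hfull P I := by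
  have key : Hcnt P I ≤ liminf (rate P I lam) atTop := by
    refine (glue P hI).trans (iSup_le fun M => ENNReal.le_of_forall_pos_le_add fun ε hε _ => ?_)
    refine tsub_le_iff_right.1 (le_liminf_of_le (by isBoundedDefault) ?_)
    filter_upwards [R_le P hI h1 M (ε := ε) hε] with l hl
    rw [ENNReal.ofReal_coe_nnreal] at hl
    exact tsub_le_iff_right.2 hl
  exact ⟨full_le P hI, key, not_lt.2 ((full_le P hI).trans (key.trans liminf_le_limsup))⟩

end Pool.Agent.Results.MP_87c4bd_co.No
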